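import Mathlib
import Pool.Agent.Helper336.CF

namespace Pool.Agent.Results.MP_435286_al.UnitsNotFG

open Pool.Agent.Helper336.CF

/-- The word problem language `{u # v^rev : π(u) = π(v)}`; the symbol `#` is `none`. -/
def WP {M A : Type} [Monoid M] (π : FreeMonoid A →* M) : Language (Option A) :=
  {w | ∃ u v : List A, π (FreeMonoid.ofList u) = π (FreeMonoid.ofList v) ∧
    w = u.map some ++ [none] ++ v.reverse.map some}

/-- The letters. -/
inductive A : Type
  | a | b | e
  deriving DecidableEq, Fintype

open A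

/-- `aⁿ` -/
abbrev rep (n : ℕ) : List A := List.replicate n a

theorem rep_cancel {n m : ℕ} {s t : List A} (h : rep n ++ e :: s = rep m ++ e :: t) :
    n = m ∧ s = t := by
  induction n generalizing m with
  | zero =>
    cases m with
    | zero => simpa using h
    | succ m => simp [rep, List.replicate_succ] at h
  | succ n ih =>
    cases m with
    | zero => simp [rep, List.replicate_succ] at h
    | succ m =>
      simp only [rep, List.replicate_succ, List.cons_append, List.cons.injEq, true_and] at h
      obtain ⟨h1, h2⟩ := ih h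
      exact ⟨by rw [h1], h2⟩

/-- The stack `s` (top first) is `aⁿ e b aⁿ e t`. -/
def Pat (s t : List A) : Prop := ∃ n, s = rep n ++ e :: (b :: (rep n ++ e :: t))

theorem Pat.unique {s t t' : List A} (h : Pat s t) (h' : Pat s t') : t = t' := by
  obtain ⟨n, rfl⟩ := h
  obtain ⟨m, h⟩ := h'
  obtain ⟨rfl, h2⟩ := rep_cancel h
  simp only [List.cons.injEq, true_and] at h2
  exact (rep_cancel h2).2

open Classical in
/-- pushing a letter -/
noncomputable def push (x : A) (s : List A) : List A :=
  if h : x = b ∧ ∃ t, Pat s t then h.2.choose else x :: s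

theorem push_pat {s t : List A} (h : Pat s t) : push b s = t := by
  have h' : (b = b) ∧ ∃ t, Pat s t := ⟨rfl, t, h⟩
  unfold push
  rw [dif_pos h']
  exact h'.2.choose_spec.unique h

theorem push_not {s : List A} (h : ¬ ∃ t, Pat s t) : push b s = b :: s := by
  unfold push
  rw [dif_neg (fun h' => h h'.2)]

theorem push_ne {x : A} (hx : x ≠ b) (s : List A) : push x s = x :: s := by
  unfold push
  rw [dif_neg (fun h' => hx h'.1)]

@[simp] theorem push_a (s : List A) : push a s = a :: s := push_ne (by decide) s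
@[simp] theorem push_e (s : List A) : push e s = e :: s := push_ne (by decide) s

/-- irreducible stacks -/
inductive Irr : List A → Prop
  | nil : Irr []
  | cons (x : A) (s : List A) : Irr s → (x = b → ¬ ∃ t, Pat s t) → Irr (x :: s)

theorem Irr.tail {x : A} {s : List A} (h : Irr (x :: s)) : Irr s := by
  cases h with
  | cons _ _ h _ => exact h

theorem Irr.of_append {l s : List A} (h : Irr (l ++ s)) : Irr s := by
  induction l with
  | nil => exact h
  | cons x l ih => exact ih h.tail

theorem Irr.push (x : A) {s : List A} (h : Irr s) : Irr (push x s) := by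
  by_cases hx : x = b
  · subst hx
    by_cases hp : ∃ t, Pat s t
    · obtain ⟨t, ht⟩ := hp
      rw [push_pat ht]
      obtain ⟨n, rfl⟩ := ht
      have h1 : Irr (e :: (b :: (rep n ++ e :: t))) := h.of_append
      have h2 : Irr (e :: t) := h1.tail.tail.of_append
      exact h2.tail
    · rw [push_not hp]
      exact Irr.cons _ _ h (fun _ => hp)
  · rw [push_ne hx]
    exact Irr.cons _ _ h (fun h' => absurd h' hx)

/-- action of a word on a stack -/
noncomputable def act (w s : List A) : List A := w.foldl (fun s x => push x s) s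

@[simp] theorem act_nil (s : List A) : act [] s = s := rfl
@[simp] theorem act_cons (x : A) (w s : List A) : act (x :: w) s = act w (push x s) := rfl
theorem act_append (u v s : List A) : act (u ++ v) s = act v (act u s) := by
  unfold act; rw [List.foldl_append]

theorem Irr.act (w : List A) {s : List A} (h : Irr s) : Irr (act w s) := by
  induction w generalizing s with
  | nil => exact h
  | cons x w ih => exact ih (h.push x)

theorem act_rep (n : ℕ) (s : List A) : act (rep n) s = rep n ++ s := by
  induction n generalizing s with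
  | zero => rfl
  | succ n ih =>
    have e1 : rep (n + 1) = a :: rep n := rfl
    have e2 : rep (n + 1) = rep n ++ [a] := List.replicate_succ'
    conv_lhs => rw [e1]
    rw [act_cons, push_a, ih, e2]
    simp

/-- the word `e aⁿ b` -/
def blk (n : ℕ) : List A := e :: (rep n ++ [b])

theorem act_blk (n : ℕ) (s : List A) : act (blk n) s = push b (rep n ++ e :: s) := by
  unfold blk
  rw [act_cons, push_e, act_append, act_rep]
  rfl

theorem act_blk_pos {n : ℕ} {s t : List A} (h : s = b :: (rep n ++ e :: t)) :
    act (blk n) s = t := by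
  rw [act_blk]
  exact push_pat ⟨n, by rw [h]⟩

theorem act_blk_neg {n : ℕ} {s : List A} (h : ¬ ∃ t, s = b :: (rep n ++ e :: t)) :
    act (blk n) s = b :: (rep n ++ e :: s) := by
  rw [act_blk]
  apply push_not
  rintro ⟨t, m, hm⟩
  obtain ⟨rfl, h2⟩ := rep_cancel hm
  exact h ⟨t, h2⟩

theorem act_blk_blk (n : ℕ) {s : List A} (hs : Irr s) : act (blk n) (act (blk n) s) = s := by
  by_cases h : ∃ t, s = b :: (rep n ++ e :: t)
  · obtain ⟨t, rfl⟩ := h
    rw [act_blk_pos rfl]
    apply act_blk_neg
    rintro ⟨t', rfl⟩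
    cases hs with
    | cons _ _ _ h => exact h rfl ⟨t', n, rfl⟩
  · rw [act_blk_neg h, act_blk_pos rfl]

/-! ### The monoid -/

/-- irreducible stacks, as a type -/
def St := {s : List A // Irr s}

/-- one letter acting on the stacks -/
noncomputable def gen (x : A) : Function.End St := fun s => ⟨push x s.1, s.2.push x⟩

/-- the action as a homomorphism -/
noncomputable def φ : FreeMonoid A →* (Function.End St)ᵐᵒᵖ :=
  FreeMonoid.lift (fun x => MulOpposite.op (gen x))

theorem φ_apply (w : List A) (s : St) :
    ((φ (FreeMonoid.ofList w)).unop s).1 = act w s.1 := by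
  induction w generalizing s with
  | nil => rfl
  | cons x w ih =>
    rw [FreeMonoid.ofList_cons, map_mul, MulOpposite.unop_mul]
    show ((φ (FreeMonoid.ofList w)).unop ((φ (FreeMonoid.of x)).unop s)).1 = _
    rw [ih]
    rfl

/-- The monoid. -/
noncomputable abbrev M := MonoidHom.mrange φ

/-- the natural map from the free monoid -/
noncomputable abbrev π : FreeMonoid A →* M := φ.mrangeRestrict

theorem π_eq_iff (u v : List A) : π (FreeMonoid.ofList u) = π (FreeMonoid.ofList v) ↔
    ∀ s, Irr s → act u s = act v s := by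
  constructor
  · intro h s hs
    have h1 := congrArg Subtype.val h
    have h2 : φ (FreeMonoid.ofList u) = φ (FreeMonoid.ofList v) := h1
    rw [← φ_apply u ⟨s, hs⟩, ← φ_apply v ⟨s, hs⟩, h2]
  · intro h
    apply Subtype.ext
    show φ (FreeMonoid.ofList u) = φ (FreeMonoid.ofList v)
    apply MulOpposite.unop_injective
    funext s
    apply Subtype.ext
    rw [φ_apply, φ_apply]
    exact h _ s.2

theorem act_nf (u : List A) {s : List A} (hs : Irr s) : act u s = act (act u []).reverse s := by
  induction u using List.reverseRecOn with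
  | nil => rfl
  | append_singleton u x ih =>
    rw [act_append, act_append]
    show push x (act u s) = act (push x (act u [])).reverse s
    by_cases hx : x = b ∧ ∃ t, Pat (act u []) t
    · obtain ⟨rfl, t, ht⟩ := hx
      rw [push_pat ht, ih]
      obtain ⟨n, hn⟩ := ht
      rw [hn]
      have e1 : (rep n ++ e :: (b :: (rep n ++ e :: t))).reverse =
          t.reverse ++ (blk n ++ (e :: rep n)) := by
        simp [blk, rep]
      rw [e1, act_append, act_append]
      have h1 := act_blk_blk n (Irr.act t.reverse hs)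
      have e2 : blk n = (e :: rep n) ++ [b] := by simp [blk]
      conv_rhs => rw [← h1]
      rw [e2, act_append (e :: rep n) [b]]
      conv_rhs => rw [act_append]
      rfl
    · have h1 : push x (act u []) = x :: act u [] := by
        by_cases hxb : x = b
        · subst hxb
          exact push_not (fun h => hx ⟨rfl, h⟩)
        · exact push_ne hxb _
      rw [h1, List.reverse_cons, act_append, ← ih]
      rfl

theorem π_eq_iff' (u v : List A) : π (FreeMonoid.ofList u) = π (FreeMonoid.ofList v) ↔
    act u [] = act v [] := by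
  rw [π_eq_iff]
  constructor
  · intro h
    exact h [] Irr.nil
  · intro h s hs
    rw [act_nf u hs, act_nf v hs, h]

/-! ### The grammar -/

/-- `DY false` is the set of words equal to `1`; `DY true` is the set of words equal to
some `aⁿ b e aⁿ`. -/
inductive DY : Bool → List A → Prop
  | nil : DY false []
  | app (u v : List A) : DY false u → DY false v → DY false (u ++ v)
  | blk (y : List A) : DY true y → DY false (e :: (y ++ [b]))
  | base (u v w : List A) : DY false u → DY false v → DY false w →
      DY true (u ++ b :: (v ++ e :: w))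
  | step (u y v : List A) : DY false u → DY true y → DY false v →
      DY true (u ++ a :: (y ++ a :: v))

/-- the meaning of the two predicates -/
def Mean : Bool → List A → Prop
  | false, w => ∀ s, Irr s → act w s = s
  | true, w => ∃ n, ∀ s, Irr s → act w s = act (rep n ++ b :: (e :: rep n)) s

theorem DY.mean {c : Bool} {w : List A} (h : DY c w) : Mean c w := by
  induction h with
  | nil => intro s _; rfl
  | app u v _ _ h1 h2 =>
    intro s hs
    rw [act_append, h1 s hs, h2 s hs]
  | blk y _ ih =>
    obtain ⟨n, hn⟩ := ih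
    intro s hs
    rw [act_cons, act_append, hn _ (hs.push e), ← act_append, ← act_cons]
    have e1 : e :: (rep n ++ b :: (e :: rep n) ++ [b]) = UnitsNotFG.blk n ++ UnitsNotFG.blk n := by
      simp [UnitsNotFG.blk]
    rw [e1, act_append, act_blk_blk n hs]
  | base u v w _ _ _ h1 h2 h3 =>
    refine ⟨0, fun s hs => ?_⟩
    rw [act_append, h1 s hs, act_cons, act_append, h2 _ (hs.push b), act_cons,
      h3 _ ((hs.push b).push e)]
    rfl
  | step u y v _ _ _ h1 h2 h3 =>
    obtain ⟨n, hn⟩ := h2
    refine ⟨n + 1, fun s hs => ?_⟩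
    rw [act_append, h1 s hs, act_cons, act_append, hn _ (hs.push a), act_cons,
      h3 _ ((Irr.act _ (hs.push a)).push a)]
    have e1 : rep (n + 1) ++ b :: (e :: rep (n + 1)) =
        a :: ((rep n ++ b :: (e :: rep n)) ++ [a]) := by
      have e2 : rep (n + 1) = rep n ++ [a] := List.replicate_succ'
      conv_lhs => rw [e2]
      have e3 : rep n ++ [a] = a :: rep n := by rw [← e2]; rfl
      conv_lhs => arg 1; rw [e3]
      simp
    rw [e1, act_cons, act_append _ [a]]
    rfl

/-- `Ins n u`: the word `u` is obtained from `n` by inserting words equal to `1`. -/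
def Ins : List A → List A → Prop
  | [], u => DY false u
  | x :: n, u => ∃ d u', DY false d ∧ u = d ++ x :: u' ∧ Ins n u'

theorem Ins.append {n m u v : List A} (hu : Ins n u) (hv : Ins m v) : Ins (n ++ m) (u ++ v) := by
  induction n generalizing u with
  | nil =>
    cases m with
    | nil => exact DY.app _ _ hu hv
    | cons x m =>
      obtain ⟨d, u', hd, rfl, hu'⟩ := hv
      exact ⟨u ++ d, u', DY.app _ _ hu hd, by simp, hu'⟩
  | cons x n ih =>
    obtain ⟨d, u', hd, rfl, hu'⟩ := hu
    exact ⟨d, u' ++ v, hd, by simp, ih hu'⟩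

theorem Ins.split {n m w : List A} (h : Ins (n ++ m) w) :
    ∃ u v, w = u ++ v ∧ Ins n u ∧ Ins m v := by
  induction n generalizing w with
  | nil => exact ⟨[], w, rfl, DY.nil, h⟩
  | cons x n ih =>
    obtain ⟨d, u', hd, rfl, hu'⟩ := h
    obtain ⟨u, v, rfl, h1, h2⟩ := ih hu'
    exact ⟨d ++ x :: u, v, by simp, ⟨d, u, hd, rfl, h1⟩, h2⟩

theorem Ins.single (x : A) : Ins [x] [x] := ⟨[], [], DY.nil, rfl, DY.nil⟩

theorem ins_rep_succ {n : ℕ} {u : List A} (h : Ins (rep (n + 1)) u) :
    ∃ v d, u = v ++ a :: d ∧ Ins (rep n) v ∧ DY false d := by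
  have e2 : rep (n + 1) = rep n ++ [a] := List.replicate_succ'
  rw [e2] at h
  obtain ⟨u, v, rfl, h1, h2⟩ := h.split
  obtain ⟨d, u', hd, rfl, hu'⟩ := h2
  refine ⟨u ++ d, u', by simp, ?_, hu'⟩
  have := h1.append (m := []) (v := d) hd
  simpa using this

theorem ins_Y {n : ℕ} {y : List A} (h : Ins (rep n ++ b :: (e :: rep n)) y) : DY true y := by
  induction n generalizing y with
  | zero =>
    obtain ⟨d, u', hd, rfl, d', u'', hd', rfl, hu''⟩ := h
    exact DY.base _ _ _ hd hd' hu''
  | succ n ih =>
    obtain ⟨d, u', hd, rfl, hu'⟩ := h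
    obtain ⟨u1, v1, rfl, h1, h2⟩ := Ins.split (n := rep n) (m := b :: (e :: rep (n + 1))) hu'
    have h2' : Ins ([b, e] ++ rep (n + 1)) v1 := h2
    obtain ⟨u2, v2, rfl, h3, h4⟩ := h2'.split
    obtain ⟨v3, d3, rfl, h5, h6⟩ := ins_rep_succ h4
    have h7 : Ins (rep n ++ b :: (e :: rep n)) (u1 ++ (u2 ++ v3)) :=
      h1.append (m := [b, e] ++ rep n) (h3.append h5)
    have := DY.step d _ d3 hd (ih h7) h6
    simpa using this

theorem ins_nf (u : List A) : Ins (act u []).reverse u := by
  induction u using List.reverseRecOn with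
  | nil => exact DY.nil
  | append_singleton u x ih =>
    rw [act_append]
    show Ins (push x (act u [])).reverse (u ++ [x])
    by_cases hx : x = b ∧ ∃ t, Pat (act u []) t
    · obtain ⟨rfl, t, ht⟩ := hx
      rw [push_pat ht]
      obtain ⟨n, hn⟩ := ht
      rw [hn] at ih
      have e1 : (rep n ++ e :: (b :: (rep n ++ e :: t))).reverse =
          t.reverse ++ (e :: (rep n ++ b :: (e :: rep n))) := by
        simp [rep]
      rw [e1] at ih
      obtain ⟨u1, v1, rfl, h1, h2⟩ := ih.split
      obtain ⟨d, y, hd, rfl, hy⟩ := h2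
      have h3 := DY.blk y (ins_Y hy)
      have h4 := h1.append (m := []) (v := d ++ (e :: (y ++ [b]))) (DY.app _ _ hd h3)
      simpa using h4
    · have h1 : push x (act u []) = x :: act u [] := by
        by_cases hxb : x = b
        · subst hxb
          exact push_not (fun h => hx ⟨rfl, h⟩)
        · exact push_ne hxb _
      rw [h1, List.reverse_cons]
      exact ih.append (Ins.single x)

/-! ### context-freeness -/

/-- Words over `A` as words over `Option A`. -/
def em (P : List A → Prop) : Set (List (Option A)) := {w | ∃ u, P u ∧ w = u.map some}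

/-- Terminal symbols of the grammar. -/
abbrev tm (x : A) : Symbol (Option A) Bool := Symbol.terminal (some x)

/-- Nonterminals -/
abbrev nt (x : Bool) : Symbol (Option A) Bool := Symbol.nonterminal x

open Classical in
/-- The rules for the two predicates. -/
noncomputable def rls : Finset (ContextFreeRule (Option A) Bool) :=
  {⟨false, []⟩, ⟨false, [nt false, nt false]⟩, ⟨false, [tm e, nt true, tm b]⟩,
    ⟨true, [nt false, tm b, nt false, tm e, nt false]⟩,
    ⟨true, [nt false, tm a, nt true, tm a, nt false]⟩}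

/-- The grammar. -/
noncomputable def grm : ContextFreeGrammar (Option A) where
  NT := Bool
  initial := false
  rules := rls

theorem mem_rls (r : ContextFreeRule (Option A) Bool) : r ∈ rls ↔
    r = ⟨false, []⟩ ∨ r = ⟨false, [nt false, nt false]⟩ ∨ r = ⟨false, [tm e, nt true, tm b]⟩ ∨
    r = ⟨true, [nt false, tm b, nt false, tm e, nt false]⟩ ∨
    r = ⟨true, [nt false, tm a, nt true, tm a, nt false]⟩ := by
  classical
  unfold rls
  simp only [Finset.mem_insert, Finset.mem_singleton]

theorem sound (r : ContextFreeRule (Option A) Bool) (hr : r ∈ rls)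
    (w : List (Option A)) (hw : Comp (fun c => em (DY c)) r.output w) :
    w ∈ (fun c => em (DY c)) r.input := by
  rw [mem_rls] at hr
  rcases hr with rfl | rfl | rfl | rfl | rfl
  · simp only [Comp] at hw
    subst hw
    exact ⟨[], DY.nil, rfl⟩
  · obtain ⟨w1, w2, rfl, ⟨u, hu, rfl⟩, w3, w4, rfl, ⟨v, hv, rfl⟩, rfl⟩ := hw
    exact ⟨u ++ v, DY.app _ _ hu hv, by simp⟩
  · obtain ⟨w1, rfl, w2, w3, rfl, ⟨y, hy, rfl⟩, w4, rfl, rfl⟩ := hw
    exact ⟨_, DY.blk y hy, by simp⟩
  · obtain ⟨w1, w2, rfl, ⟨u, hu, rfl⟩, w3, rfl, w4, w5, rfl, ⟨v, hv, rfl⟩, w6, rfl, w7, w8, rfl,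
      ⟨w, hw, rfl⟩, rfl⟩ := hw
    exact ⟨_, DY.base _ _ _ hu hv hw, by simp⟩
  · obtain ⟨w1, w2, rfl, ⟨u, hu, rfl⟩, w3, rfl, w4, w5, rfl, ⟨v, hv, rfl⟩, w6, rfl, w7, w8, rfl,
      ⟨w, hw, rfl⟩, rfl⟩ := hw
    exact ⟨_, DY.step _ _ _ hu hv hw, by simp⟩

theorem gen_DY {c : Bool} {w : List A} (h : DY c w) : w.map some ∈ Gen grm c := by
  induction h with
  | nil =>
    refine gen_of_rule grm ⟨false, []⟩ ((mem_rls _).2 (Or.inl rfl)) _ ?_
    rfl
  | app u v _ _ h1 h2 =>
    refine gen_of_rule grm ⟨false, [nt false, nt false]⟩ ((mem_rls _).2 (Or.inr (Or.inl rfl))) _ ?_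
    exact ⟨u.map some, _, by simp; rfl, h1, v.map some, [], by simp, h2, rfl⟩
  | blk y _ ih =>
    refine gen_of_rule grm ⟨false, [tm e, nt true, tm b]⟩
      ((mem_rls _).2 (Or.inr (Or.inr (Or.inl rfl)))) _ ?_
    exact ⟨_, rfl, y.map some, [some b], by simp, ih, _, rfl, rfl⟩
  | base u v w _ _ _ h1 h2 h3 =>
    refine gen_of_rule grm ⟨true, [nt false, tm b, nt false, tm e, nt false]⟩
      ((mem_rls _).2 (Or.inr (Or.inr (Or.inr (Or.inl rfl))))) _ ?_
    exact ⟨u.map some, _, by simp; rfl, h1, _, rfl, v.map some, _, rfl, h2, _, rfl,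
      w.map some, [], by simp, h3, rfl⟩
  | step u y v _ _ _ h1 h2 h3 =>
    refine gen_of_rule grm ⟨true, [nt false, tm a, nt true, tm a, nt false]⟩
      ((mem_rls _).2 (Or.inr (Or.inr (Or.inr (Or.inr rfl))))) _ ?_
    exact ⟨u.map some, _, by simp; rfl, h1, _, rfl, y.map some, _, rfl, h2, _, rfl,
      v.map some, [], by simp, h3, rfl⟩

theorem gen_grm : Gen grm grm.initial = em (DY false) := by
  apply Set.Subset.antisymm
  · intro w hw
    have := comp_of_derives grm (fun c => em (DY c)) (fun r hr w hw => sound r hr w hw)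
      [Symbol.nonterminal grm.initial] w hw
    obtain ⟨w₁, w₂, rfl, h1, h2⟩ := this
    simp only [Comp] at h2
    subst h2
    rw [List.append_nil]
    exact h1
  · rintro w ⟨u, hu, rfl⟩
    exact gen_DY hu

theorem cf_D : Language.IsContextFree (em (DY false) : Language (Option A)) := by
  refine ⟨grm, ?_⟩
  exact gen_grm

theorem cf_rev : ∃ g : ContextFreeGrammar (Option A),
    Gen g g.initial = {w | ∃ u, DY false u ∧ w = u.reverse.map some} := by
  obtain ⟨g, hg⟩ := Language.IsContextFree.reverse cf_D
  refine ⟨g, ?_⟩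
  rw [gen_initial, hg]
  ext w
  constructor
  · intro hw
    have hw' : w.reverse ∈ em (DY false) := hw
    obtain ⟨u, hu, he⟩ := hw'
    refine ⟨u, hu, ?_⟩
    have := congrArg List.reverse he
    simpa using this
  · rintro ⟨u, hu, rfl⟩
    show (u.reverse.map some).reverse ∈ em (DY false)
    exact ⟨u, hu, by simp⟩

open Classical in
theorem cf_WP : (WP π).IsContextFree := by
  obtain ⟨g₂, hg₂⟩ := cf_rev
  refine ext_cf grm g₂ ({[Symbol.terminal none]} ∪
    Finset.univ.image (fun x : A => [Symbol.terminal (some x), Symbol.nonterminal none,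
      Symbol.terminal (some x)]) ∪
    {[Symbol.nonterminal (some (Sum.inl grm.initial)), Symbol.nonterminal none],
      [Symbol.nonterminal none, Symbol.nonterminal (some (Sum.inr g₂.initial))]}) _ ?_ ?_
  · intro o ho w hw
    simp only [Finset.mem_union, Finset.mem_singleton, Finset.mem_image, Finset.mem_univ,
      true_and, Finset.mem_insert] at ho
    rcases ho with (rfl | ⟨x, rfl⟩) | rfl | rfl
    · obtain ⟨w', rfl, rfl⟩ := hw
      exact ⟨[], [], rfl, rfl⟩
    · obtain ⟨w1, rfl, w2, w3, rfl, ⟨u, v, huv, rfl⟩, w4, rfl, rfl⟩ := hw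
      refine ⟨x :: u, x :: v, ?_, by simp⟩
      rw [π_eq_iff] at huv ⊢
      intro s hs
      exact huv _ (hs.push x)
    · obtain ⟨w1, w2, rfl, hd, w3, w4, rfl, ⟨u, v, huv, rfl⟩, rfl⟩ := hw
      have hd' : w1 ∈ Gen grm grm.initial := hd
      rw [gen_grm] at hd'
      obtain ⟨d, hd', rfl⟩ := hd'
      refine ⟨d ++ u, v, ?_, by simp⟩
      rw [π_eq_iff] at huv ⊢
      intro s hs
      rw [act_append, hd'.mean s hs, huv s hs]
    · obtain ⟨w1, w2, rfl, ⟨u, v, huv, rfl⟩, w3, w4, rfl, hd, rfl⟩ := hw
      have hd' : w3 ∈ Gen g₂ g₂.initial := hd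
      rw [hg₂] at hd'
      obtain ⟨d, hd', rfl⟩ := hd'
      refine ⟨u, d ++ v, ?_, by simp⟩
      rw [π_eq_iff] at huv ⊢
      intro s hs
      rw [act_append, hd'.mean s hs, huv s hs]
  · intro S hS1 hS2 hS w hw
    obtain ⟨u, v, huv, rfl⟩ := hw
    rw [π_eq_iff'] at huv
    have key : ∀ n u v : List A, Ins n u → Ins n v →
        u.map some ++ [none] ++ v.reverse.map some ∈ S none := by
      have hD : ∀ d u v : List A, DY false d →
          u.map some ++ [none] ++ v.reverse.map some ∈ S none →
          (d ++ u).map some ++ [none] ++ v.reverse.map some ∈ S none := by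
        intro d u v hd h
        refine hS _ (by
          simp only [Finset.mem_union, Finset.mem_insert, Finset.mem_singleton]
          exact Or.inr (Or.inl rfl)) _ ?_
        refine ⟨d.map some, u.map some ++ [none] ++ v.reverse.map some, by simp, ?_, _, [],
          by simp, h, rfl⟩
        exact hS1 _ (gen_DY hd)
      have hD' : ∀ d u v : List A, DY false d →
          u.map some ++ [none] ++ v.reverse.map some ∈ S none →
          u.map some ++ [none] ++ (d ++ v).reverse.map some ∈ S none := by
        intro d u v hd h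
        refine hS _ (by
          simp only [Finset.mem_union, Finset.mem_insert, Finset.mem_singleton]
          exact Or.inr (Or.inr rfl)) _ ?_
        refine ⟨u.map some ++ [none] ++ v.reverse.map some, d.reverse.map some,
          by rw [List.reverse_append, List.map_append]; simp only [List.append_assoc], h,
          d.reverse.map some, [], (List.append_nil _).symm, ?_, rfl⟩
        apply hS2
        rw [hg₂]
        exact ⟨d, hd, rfl⟩
      intro n
      induction n with
      | nil =>
        intro u v hu hv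
        have h0 : ([] : List A).map some ++ [none] ++ ([] : List A).reverse.map some ∈ S none := by
          refine hS [Symbol.terminal none] (by simp) _ ?_
          exact ⟨[], rfl, rfl⟩
        have h1 := hD u [] [] hu h0
        have h2 := hD' v (u ++ []) [] hv h1
        simpa using h2
      | cons x n ih =>
        rintro u v ⟨d, u', hd, rfl, hu'⟩ ⟨d', v', hd', rfl, hv'⟩
        have h1 := ih u' v' hu' hv'
        have h2 : (x :: u').map some ++ [none] ++ (x :: v').reverse.map some ∈ S none := by
          refine hS [Symbol.terminal (some x), Symbol.nonterminal none,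
            Symbol.terminal (some x)] (by simp) _ ?_
          exact ⟨u'.map some ++ [none] ++ v'.reverse.map some ++ [some x], by simp,
            _, [some x], rfl, h1, [], rfl, rfl⟩
        exact hD' _ _ _ hd' (hD _ _ _ hd h2)
    have h1 := ins_nf u
    have h2 := ins_nf v
    rw [← huv] at h2
    exact key _ u v h1 h2

/-! ### The units are not finitely generated -/

/-- stacks made of the blocks `e a^i` and `e a^i b` with `i < N` -/
inductive Cl (N : ℕ) : List A → Prop
  | nil : Cl N []
  | opn (i : ℕ) (s : List A) : i < N → Cl N s → Cl N (rep i ++ e :: s)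
  | cls (i : ℕ) (s : List A) : i < N → Cl N s → Cl N (b :: (rep i ++ e :: s))

theorem Cl.mono {N N' : ℕ} (h : N ≤ N') {s : List A} (hs : Cl N s) : Cl N' s := by
  induction hs with
  | nil => exact Cl.nil
  | opn i s hi _ ih => exact Cl.opn i s (by omega) ih
  | cls i s hi _ ih => exact Cl.cls i s (by omega) ih

theorem rep_e_ne_nil {i : ℕ} {s : List A} : rep i ++ e :: s ≠ [] := by simp

theorem rep_e_ne_b {i : ℕ} {s t : List A} : rep i ++ e :: s ≠ b :: t := by
  cases i <;> simp [rep, List.replicate_succ]

theorem Cl.inv {N : ℕ} {l : List A} (h : Cl N l) :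
    l = [] ∨ (∃ i s, i < N ∧ Cl N s ∧ l = rep i ++ e :: s) ∨
      (∃ i s, i < N ∧ Cl N s ∧ l = b :: (rep i ++ e :: s)) := by
  cases h with
  | nil => exact Or.inl rfl
  | opn i s hi hs => exact Or.inr (Or.inl ⟨i, s, hi, hs, rfl⟩)
  | cls i s hi hs => exact Or.inr (Or.inr ⟨i, s, hi, hs, rfl⟩)

theorem Cl.inv_b {N n : ℕ} {t : List A} (h : Cl N (b :: (rep n ++ e :: t))) :
    n < N ∧ Cl N t := by
  rcases h.inv with h | ⟨i, s, -, -, h⟩ | ⟨i, s, hi, hs, h⟩
  · simp at h
  · exact absurd h.symm rep_e_ne_b
  · simp only [List.cons.injEq, true_and] at h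
    obtain ⟨rfl, rfl⟩ := rep_cancel h
    exact ⟨hi, hs⟩

theorem Cl.of_push {N : ℕ} {x : A} {s : List A} (h : Cl N (push x s)) : ∃ N', Cl N' s := by
  cases x with
  | a =>
    rw [push_a] at h
    rcases h.inv with h | ⟨i, t, hi, ht, h⟩ | ⟨i, t, hi, ht, h⟩
    · simp at h
    · cases i with
      | zero => simp [rep] at h
      | succ i =>
        simp only [rep, List.replicate_succ, List.cons_append, List.cons.injEq, true_and] at h
        exact ⟨N, h ▸ Cl.opn i t (by omega) ht⟩
    · simp at h
  | e =>
    rw [push_e] at h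
    rcases h.inv with h | ⟨i, t, hi, ht, h⟩ | ⟨i, t, hi, ht, h⟩
    · simp at h
    · cases i with
      | zero =>
        simp [rep] at h
        exact ⟨N, h ▸ ht⟩
      | succ i => simp [rep, List.replicate_succ] at h
    · simp at h
  | b =>
    by_cases hp : ∃ t, Pat s t
    · obtain ⟨t, ht⟩ := hp
      rw [push_pat ht] at h
      obtain ⟨n, rfl⟩ := ht
      refine ⟨max N (n + 1), Cl.opn n _ (by omega) (Cl.cls n _ (by omega) (h.mono (by omega)))⟩
    · rw [push_not hp] at h
      rcases h.inv with h | ⟨i, t, hi, ht, h⟩ | ⟨i, t, hi, ht, h⟩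
      · simp at h
      · exact absurd h.symm rep_e_ne_b
      · simp only [List.cons.injEq, true_and] at h
        exact ⟨N, h ▸ Cl.opn i t hi ht⟩

theorem Cl.of_act (w : List A) : ∀ {N : ℕ} {s : List A}, Cl N (act w s) → ∃ N', Cl N' s := by
  induction w with
  | nil => exact fun {N s} h => ⟨N, h⟩
  | cons x w ih =>
    intro N s h
    rw [act_cons] at h
    obtain ⟨N', h'⟩ := ih h
    exact h'.of_push

theorem Cl.act {N : ℕ} {l : List A} (hl : Cl N l) {s : List A} (hs : Cl N s) :
    Cl N (act l.reverse s) := by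
  induction hl with
  | nil => exact hs
  | opn i l hi _ ih =>
    have e1 : (rep i ++ e :: l).reverse = l.reverse ++ (e :: rep i) := by simp [rep]
    rw [e1, act_append, act_cons, push_e, act_rep]
    exact Cl.opn i _ hi ih
  | cls i l hi _ ih =>
    have e1 : (b :: (rep i ++ e :: l)).reverse = l.reverse ++ blk i := by simp [rep, blk]
    rw [e1, act_append]
    by_cases h : ∃ t, UnitsNotFG.act l.reverse s = b :: (rep i ++ e :: t)
    · obtain ⟨t, ht⟩ := h
      rw [act_blk_pos ht]
      rw [ht] at ih
      exact ih.inv_b.2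
    · rw [act_blk_neg h]
      exact Cl.cls i _ hi ih

/-- action of an element of the monoid on the empty stack and on all stacks -/
noncomputable def sact (x : M) (s : St) : St := x.1.unop s

theorem sact_mul (x y : M) (s : St) : sact (x * y) s = sact y (sact x s) := rfl

theorem sact_π (w : List A) (s : St) : (sact (π (FreeMonoid.ofList w)) s).1 = act w s.1 :=
  φ_apply w s

theorem exists_word (x : M) : ∃ w : List A, π (FreeMonoid.ofList w) = x := by
  obtain ⟨w, hw⟩ := φ.mrangeRestrict_surjective x
  exact ⟨w.toList, by simpa using hw⟩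

/-- preservation of the class -/
def Pres (N : ℕ) (x : M) : Prop := ∀ s : St, Cl N s.1 → Cl N (sact x s).1

theorem pres_of_unit (x y : M) (h : x * y = 1) : ∃ N, ∀ N', N ≤ N' → Pres N' x := by
  obtain ⟨u, rfl⟩ := exists_word x
  obtain ⟨v, rfl⟩ := exists_word y
  have h1 : act v (act u []) = [] := by
    have h2 := congrArg (fun z => (sact z ⟨[], Irr.nil⟩).1) h
    simp only [sact_mul] at h2
    rw [sact_π, sact_π] at h2
    exact h2
  have h2 : Cl 0 (act v (act u [])) := by rw [h1]; exact Cl.nil
  obtain ⟨N, hN⟩ := h2.of_act v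
  refine ⟨N, fun N' hN' s hs => ?_⟩
  rw [sact_π, act_nf u s.2]
  exact (hN.mono hN').act hs

/-- the unit `e aⁿ b` -/
noncomputable def unit (n : ℕ) : Mˣ where
  val := π (FreeMonoid.ofList (blk n))
  inv := π (FreeMonoid.ofList (blk n))
  val_inv := by
    rw [← map_mul, ← FreeMonoid.ofList_append, ← map_one π, ← FreeMonoid.ofList_nil, π_eq_iff]
    intro s hs
    rw [act_append, act_blk_blk n hs]; rfl
  inv_val := by
    rw [← map_mul, ← FreeMonoid.ofList_append, ← map_one π, ← FreeMonoid.ofList_nil, π_eq_iff]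
    intro s hs
    rw [act_append, act_blk_blk n hs]; rfl

theorem not_fg : ¬ Group.FG Mˣ := by
  rw [Group.fg_iff]
  rintro ⟨S, hS, hfin⟩
  have h1 : ∀ x : Mˣ, ∃ N, ∀ N', N ≤ N' → Pres N' (x : M) ∧ Pres N' ((x⁻¹ : Mˣ) : M) := by
    intro x
    obtain ⟨N1, h1⟩ := pres_of_unit (x : M) ((x⁻¹ : Mˣ) : M) (by simp)
    obtain ⟨N2, h2⟩ := pres_of_unit ((x⁻¹ : Mˣ) : M) (x : M) (by simp)
    exact ⟨max N1 N2, fun N' hN' => ⟨h1 N' (by omega), h2 N' (by omega)⟩⟩
  choose f hf using h1
  obtain ⟨N, hN⟩ : ∃ N, ∀ x ∈ S, f x ≤ N := by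
    obtain ⟨N, hN⟩ := (hfin.image f).bddAbove
    exact ⟨N, fun x hx => hN ⟨x, hx, rfl⟩⟩
  have h2 : ∀ x ∈ Subgroup.closure S, Pres N (x : M) ∧ Pres N ((x⁻¹ : Mˣ) : M) := by
    intro x hx
    induction hx using Subgroup.closure_induction with
    | mem x hx => exact hf x N (hN x hx)
    | one =>
      refine ⟨fun s hs => hs, fun s hs => ?_⟩
      rw [inv_one]
      exact hs
    | mul x y _ _ h1 h2 =>
      refine ⟨fun s hs => h2.1 _ (h1.1 s hs), fun s hs => ?_⟩
      rw [mul_inv_rev]
      exact h1.2 _ (h2.2 s hs)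
    | inv x _ h => exact ⟨h.2, by rw [inv_inv]; exact h.1⟩
  have h3 := (h2 (unit N) (by rw [hS]; trivial)).1 ⟨[], Irr.nil⟩ Cl.nil
  have h4 : (sact ((unit N : Mˣ) : M) ⟨[], Irr.nil⟩).1 = b :: (rep N ++ e :: []) := by
    show (sact (π (FreeMonoid.ofList (blk N))) _).1 = _
    rw [sact_π]
    apply act_blk_neg
    simp
  rw [h4] at h3
  exact absurd h3.inv_b.1 (lt_irrefl N)

/-- **Theorem.** There is a monoid with context-free word problem whose group of units is not
finitely generated. -/
theorem result : ∃ (M : Type) (_ : Monoid M) (A : Type) (_ : Fintype A)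
    (π : FreeMonoid A →* M), Function.Surjective π ∧ (WP π).IsContextFree ∧ ¬ Group.FG Mˣ :=
  ⟨M, inferInstance, A, inferInstance, π, φ.mrangeRestrict_surjective, cf_WP, not_fg⟩

end Pool.Agent.Results.MP_435286_al.UnitsNotFG
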